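import Pool.Agent.H31.CN.T3

/-!
# (MNR) the main term for fixed discriminant as a value of the functional `Ph`
-/

set_option autoImplicit false

open MeasureTheory Set Filter
open scoped Real

namespace Pool.Agent.H1.CN

open Pool.Agent.H31.CN

/-- `r` represents the weight `W`, all moduli are prime to `N` -/
inductive Rp (N : ℕ) : (ℕ → ℕ → ℝ) → GR → Prop
  | zero {W : ℕ → ℕ → ℝ} : (∀ e A, W e A = 0) → Rp N W 0
  | ind {W : ℕ → ℕ → ℝ} (a b : ℕ) (k : ℝ) : 1 ≤ a → 1 ≤ b → Nat.Coprime a N → Nat.Coprime b N →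
      (∀ e A, W e A = if a ∣ A ∧ b ∣ e then k else 0) →
      Rp N W ((k / ((a : ℝ) * b)) • E (Real.log a) (Real.log (a * (b : ℝ) ^ 2)))
  | add {W W' W'' : ℕ → ℕ → ℝ} {r r' : GR} : Rp N W r → Rp N W' r' →
      (∀ e A, W'' e A = W e A + W' e A) → Rp N W'' (r + r')

theorem Rp.congr {N : ℕ} {W W' : ℕ → ℕ → ℝ} {r r' : GR} (h : Rp N W r)
    (hW : ∀ e A, W' e A = W e A) (hr : r' = r) : Rp N W' r' := by
  have := Rp.add h (Rp.zero (N := N) (W := fun _ _ => 0) (fun _ _ => rfl)) (W'' := W')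
    (by intro e A; rw [hW, add_zero])
  rw [add_zero] at this
  rw [hr]
  exact this

theorem Rp.sum {N : ℕ} {ι : Type} (T : Finset ι) (W : ι → ℕ → ℕ → ℝ) (r : ι → GR)
    (h : ∀ x ∈ T, Rp N (W x) (r x)) :
    Rp N (fun e A => ∑ x ∈ T, W x e A) (∑ x ∈ T, r x) := by
  classical
  induction T using Finset.induction_on with
  | empty => exact Rp.zero fun e A => by simp
  | insert x T hx ih =>
    rw [Finset.sum_insert hx]
    exact Rp.add (h x (Finset.mem_insert_self _ _))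
      (ih fun y hy => h y (Finset.mem_insert_of_mem hy)) fun e A => Finset.sum_insert hx

theorem Rp.mulk {p N : ℕ} (hp : p.Prime) (hpN : Nat.Coprime p N) (i j : ℕ) (k : ℝ)
    {W : ℕ → ℕ → ℝ} {r : GR} (h : Rp (p * N) W r) :
    Rp N (fun e A => W e A * if p ^ i ∣ A ∧ p ^ j ∣ e then k else 0)
      (r * ((k / ((p : ℝ) ^ i * (p : ℝ) ^ j)) •
        E (i * Real.log p) ((i + 2 * j) * Real.log p))) := by
  have hp0 : (0 : ℝ) < p := by exact_mod_cast hp.pos
  induction h with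
  | zero h =>
    rw [zero_mul]
    exact Rp.zero fun e A => by rw [h, zero_mul]
  | @ind W a b k' ha hb haN hbN hW =>
    have ha0 : (0 : ℝ) < a := by exact_mod_cast ha
    have hb0 : (0 : ℝ) < b := by exact_mod_cast hb
    have hap : Nat.Coprime a p := Nat.Coprime.coprime_mul_right_right haN
    have hbp : Nat.Coprime b p := Nat.Coprime.coprime_mul_right_right hbN
    have haN' : Nat.Coprime a N := Nat.Coprime.coprime_mul_left_right haN
    have hbN' : Nat.Coprime b N := Nat.Coprime.coprime_mul_left_right hbN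
    have h1 := Rp.ind (N := N) (W := fun e A => W e A * if p ^ i ∣ A ∧ p ^ j ∣ e then k else 0)
      (a * p ^ i) (b * p ^ j) (k' * k) (Nat.mul_pos ha (pow_pos hp.pos _))
      (Nat.mul_pos hb (pow_pos hp.pos _))
      (Nat.Coprime.mul_left haN' (Nat.Coprime.pow_left _ hpN))
      (Nat.Coprime.mul_left hbN' (Nat.Coprime.pow_left _ hpN)) (by
        intro e A
        have hA : a * p ^ i ∣ A ↔ a ∣ A ∧ p ^ i ∣ A :=
          ⟨fun h => ⟨(Nat.dvd_mul_right _ _).trans h, (Nat.dvd_mul_left _ _).trans h⟩,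
            fun h => Nat.Coprime.mul_dvd_of_dvd_of_dvd (Nat.Coprime.pow_right _ hap) h.1 h.2⟩
        have he : b * p ^ j ∣ e ↔ b ∣ e ∧ p ^ j ∣ e :=
          ⟨fun h => ⟨(Nat.dvd_mul_right _ _).trans h, (Nat.dvd_mul_left _ _).trans h⟩,
            fun h => Nat.Coprime.mul_dvd_of_dvd_of_dvd (Nat.Coprime.pow_right _ hbp) h.1 h.2⟩
        rw [hW]
        simp only [hA, he]
        by_cases h1 : a ∣ A <;> by_cases h2 : p ^ i ∣ A <;> by_cases h3 : b ∣ e <;>
          by_cases h4 : p ^ j ∣ e <;> simp [h1, h2, h3, h4])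
    refine h1.congr (fun e A => rfl) ?_
    rw [smul_mul_smul_comm, E_mul]
    push_cast
    have e1 : Real.log a + i * Real.log p = Real.log (a * (p : ℝ) ^ i) := by
      rw [Real.log_mul ha0.ne' (by positivity), Real.log_pow]
    have e2 : Real.log (a * (b : ℝ) ^ 2) + (i + 2 * j) * Real.log p =
        Real.log (a * (p : ℝ) ^ i * (b * (p : ℝ) ^ j) ^ 2) := by
      rw [Real.log_mul (by positivity) (by positivity), Real.log_mul (by positivity) (by positivity),
        Real.log_mul (by positivity) (by positivity), Real.log_pow, Real.log_pow, Real.log_pow,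
        Real.log_mul (by positivity) (by positivity), Real.log_pow]
      push_cast
      ring
    rw [e1, e2]
    congr 1
    field_simp
  | @add W W' W'' r r' _ _ hW ih ih' =>
    rw [add_mul]
    exact Rp.add ih ih' fun e A => by rw [hW, add_mul]

theorem Rp.one {p N : ℕ} (hp : p.Prime) (hpN : Nat.Coprime p N)
    {W : ℕ → ℕ → ℝ} {r : GR} (h : Rp (p * N) W r) :
    Rp N (fun e A => W e A * ((if p ∣ A then 1 else 0) + (if p ∣ e then 1 else 0)))
      (r * (E 0 (Real.log p) * al p)) := by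
  have h1 := h.mulk hp hpN 1 0 1
  have h2 := h.mulk hp hpN 0 1 1
  refine (Rp.add h1 h2 (W'' := fun e A => W e A * ((if p ∣ A then 1 else 0) +
    (if p ∣ e then 1 else 0))) ?_).congr (fun e A => rfl) ?_
  · intro e A
    simp only [pow_one, pow_zero, one_dvd, and_true, true_and]
    ring
  · rw [← mul_add]
    congr 1
    unfold al
    simp only [pow_one, pow_zero, Nat.cast_one, Nat.cast_zero, mul_one, one_mul, zero_mul,
      mul_zero, add_zero, zero_add]
    rw [mul_smul_comm, mul_add, E_mul, E_mul, smul_add]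
    congr 3 <;> ring_nf

theorem Rp.both {p N : ℕ} (hp : p.Prime) (hpN : Nat.Coprime p N)
    {W : ℕ → ℕ → ℝ} {r : GR} (h : Rp (p * N) W r) :
    Rp N (fun e A => W e A * ((if p ^ 2 ∣ A then 1 else 0) +
        (if p ∣ A ∧ p ∣ e then 2 - 1 / (p : ℝ) else 0) +
        (if p ∣ e then 1 else 0) + (if p ^ 2 ∣ e then 1 else 0)))
      (r * (E 0 (2 * Real.log p) * (et p + al p ^ 2))) := by
  have hp0 : (0 : ℝ) < p := by exact_mod_cast hp.pos
  have h1 := h.mulk hp hpN 2 0 1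
  have h2 := h.mulk hp hpN 1 1 (2 - 1 / (p : ℝ))
  have h3 := h.mulk hp hpN 0 1 1
  have h4 := h.mulk hp hpN 0 2 1
  have h12 := Rp.add h1 h2 (W'' := fun e A => W e A * ((if p ^ 2 ∣ A then 1 else 0) +
    (if p ∣ A ∧ p ∣ e then 2 - 1 / (p : ℝ) else 0))) (by
      intro e A
      simp only [pow_one, pow_zero, one_dvd, and_true]
      ring)
  have h34 := Rp.add h3 h4 (W'' := fun e A => W e A * ((if p ∣ e then 1 else 0) +
    (if p ^ 2 ∣ e then 1 else 0))) (by
      intro e A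
      simp only [pow_one, pow_zero, one_dvd, true_and]
      ring)
  refine (Rp.add h12 h34 (W'' := fun e A => W e A * ((if p ^ 2 ∣ A then 1 else 0) +
        (if p ∣ A ∧ p ∣ e then 2 - 1 / (p : ℝ) else 0) +
        (if p ∣ e then 1 else 0) + (if p ^ 2 ∣ e then 1 else 0))) ?_).congr (fun e A => rfl) ?_
  · intro e A
    ring
  · rw [← mul_add, ← mul_add, ← mul_add]
    congr 1
    have hE : E (Real.log p) 0 * E (Real.log p) 0 = E (2 * Real.log p) 0 := by
      rw [E_mul]; congr 1 <;> ring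
    have hE2 : E (Real.log p) 0 * E 0 (Real.log p) = E (Real.log p) (Real.log p) := by
      rw [E_mul]; congr 1 <;> ring
    have hE3 : E 0 (Real.log p) * E 0 (Real.log p) = E 0 (2 * Real.log p) := by
      rw [E_mul]; congr 1 <;> ring
    have hE4 : E 0 (Real.log p) * E (Real.log p) 0 = E (Real.log p) (Real.log p) := by
      rw [E_mul]; congr 1 <;> ring
    have hal : al p ^ 2 = (1 / (p : ℝ) ^ 2) • (E (2 * Real.log p) 0 +
        (2 : ℝ) • E (Real.log p) (Real.log p) + E 0 (2 * Real.log p)) := by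
      unfold al
      rw [pow_two, smul_mul_smul_comm, add_mul, mul_add, mul_add, hE, hE2, hE3, hE4, two_smul]
      congr 1
      · field_simp
      · abel
    rw [hal]
    unfold et
    simp only [mul_add, mul_sub, mul_smul_comm, mul_one, E_mul, smul_add, smul_smul]
    simp only [pow_one, pow_zero, Nat.cast_one, Nat.cast_zero, mul_one, one_mul, zero_mul,
      mul_zero, add_zero, zero_add, Nat.cast_ofNat]
    have a1 : E (2 * Real.log p) (2 * Real.log p) = E (2 * Real.log p) (2 * Real.log p) := rfl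
    have a2 : (1 + 2 * 1 : ℝ) * Real.log p = 2 * Real.log p + Real.log p := by ring
    have a3 : (2 * 2 : ℝ) * Real.log p = 2 * Real.log p + 2 * Real.log p := by ring
    have a4 : ((2 : ℝ) - 1 / p) / (p * p) = 1 / (p : ℝ) ^ 2 * 2 - 1 / (p : ℝ) ^ 3 := by
      field_simp
    rw [a3, a4]
    try rw [a2]
    try rw [show (1 + 2 : ℝ) * Real.log p = 2 * Real.log p + Real.log p by ring]
    rw [sub_smul]
    abel

theorem Rp.prod (m₁ m₂ : ℕ) (Q : Finset ℕ) (hQ : ∀ p ∈ Q, p.Prime) :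
    ∀ (W : ℕ → ℕ → ℝ) (r : GR), Rp (∏ p ∈ Q, p) W r →
      Rp 1 (fun e A => W e A * ∏ p ∈ Q, (if p ∣ m₁ ∧ p ∣ m₂ then
        ((if p ^ 2 ∣ A then 1 else 0) +
          (if p ∣ A ∧ p ∣ e then 2 - 1 / (p : ℝ) else 0) +
          (if p ∣ e then 1 else 0) + (if p ^ 2 ∣ e then 1 else 0) : ℝ)
        else ((if p ∣ A then 1 else 0) + (if p ∣ e then 1 else 0) : ℝ)))
        (r * ∏ p ∈ Q, (if p ∣ m₁ ∧ p ∣ m₂ then E 0 (2 * Real.log p) * (et p + al p ^ 2)
          else E 0 (Real.log p) * al p)) := by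
  classical
  induction Q using Finset.induction_on with
  | empty =>
    intro W r h
    simpa using h
  | insert p Q hpQ ih =>
    intro W r h
    rw [Finset.prod_insert hpQ] at h
    have hp := hQ p (Finset.mem_insert_self _ _)
    have hQ' : ∀ q ∈ Q, q.Prime := fun q hq => hQ q (Finset.mem_insert_of_mem hq)
    have hc : Nat.Coprime p (∏ p ∈ Q, p) := by
      refine Nat.Coprime.prod_right fun q hq => ?_
      refine (Nat.coprime_primes hp (hQ' q hq)).2 ?_
      rintro rfl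
      exact hpQ hq
    by_cases hd : p ∣ m₁ ∧ p ∣ m₂
    · refine (ih hQ' _ _ (h.both hp hc)).congr (fun e A => ?_) ?_
      · rw [Finset.prod_insert hpQ, if_pos hd, mul_assoc]
      · rw [Finset.prod_insert hpQ, if_pos hd]
        ring
    · refine (ih hQ' _ _ (h.one hp hc)).congr (fun e A => ?_) ?_
      · rw [Finset.prod_insert hpQ, if_neg hd, mul_assoc]
      · rw [Finset.prod_insert hpQ, if_neg hd]
        ring

theorem E_sum {ι : Type} (Q : Finset ι) (f : ι → ℝ) :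
    ∏ p ∈ Q, E 0 (f p) = E 0 (∑ p ∈ Q, f p) := by
  classical
  induction Q using Finset.induction_on with
  | empty => simp [E_zero]
  | insert p Q hp ih => rw [Finset.prod_insert hp, Finset.sum_insert hp, ih, E_mul, add_zero]

theorem log_sq {m : ℕ} (hm : Squarefree m) {Q : Finset ℕ} (hQ : m.primeFactors = Q.filter (· ∣ m)) :
    Real.log m = ∑ p ∈ Q, if p ∣ m then Real.log p else 0 := by
  rw [← Finset.sum_filter, ← hQ]
  conv_lhs => rw [← Nat.prod_primeFactors_of_squarefree hm]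
  push_cast
  rw [Real.log_prod]
  intro p hp
  have := (Nat.prime_of_mem_primeFactors hp).pos
  positivity

theorem sum_log (m₁ m₂ : ℕ) (h1 : Squarefree m₁) (h2 : Squarefree m₂) :
    ∑ p ∈ (m₁ * m₂).primeFactors, (if p ∣ m₁ ∧ p ∣ m₂ then 2 * Real.log p else Real.log p) =
      Real.log m₁ + Real.log m₂ := by
  classical
  have h10 := h1.ne_zero
  have h20 := h2.ne_zero
  have e1 : m₁.primeFactors = (m₁ * m₂).primeFactors.filter (· ∣ m₁) := by
    ext p
    simp only [Finset.mem_filter, Nat.mem_primeFactors]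
    constructor
    · rintro ⟨hp, hd, h0⟩
      exact ⟨⟨hp, hd.mul_right _, mul_ne_zero h10 h20⟩, hd⟩
    · rintro ⟨⟨hp, -, -⟩, hd⟩
      exact ⟨hp, hd, h10⟩
  have e2 : m₂.primeFactors = (m₁ * m₂).primeFactors.filter (· ∣ m₂) := by
    ext p
    simp only [Finset.mem_filter, Nat.mem_primeFactors]
    constructor
    · rintro ⟨hp, hd, h0⟩
      exact ⟨⟨hp, hd.mul_left _, mul_ne_zero h10 h20⟩, hd⟩
    · rintro ⟨⟨hp, -, -⟩, hd⟩
      exact ⟨hp, hd, h20⟩
  rw [log_sq h1 e1, log_sq h2 e2, ← Finset.sum_add_distrib]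
  refine Finset.sum_congr rfl fun p hp => ?_
  have hpp := Nat.prime_of_mem_primeFactors hp
  rcases (hpp.dvd_mul).1 (Nat.dvd_of_mem_primeFactors hp) with hd | hd
  · by_cases hd2 : p ∣ m₂
    · simp [hd, hd2]; ring
    · simp [hd, hd2]
  · by_cases hd2 : p ∣ m₁
    · simp [hd, hd2]; ring
    · simp [hd, hd2]

theorem Ph_E (l x y : ℝ) : Ph l (E x y) = SS (l - x) (l - y) := lin_E _ x y

theorem hs_ind (hSSA : T_SSA) (Δ : ℝ) (hΔ : 0 < Δ) (c : ℝ) (hc : 0 < c) (a b : ℕ) (ha : 1 ≤ a)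
    (hb : 1 ≤ b) (k : ℝ) :
    HasSum (fun x : ℕ × ℕ => Vk ((x.1 : ℝ) ^ 2 * x.2 / (c * Real.sqrt Δ)) / ((x.1 : ℝ) * x.2) *
      (if a ∣ x.2 ∧ b ∣ x.1 then k else 0) * (Real.log (Real.sqrt Δ) - Real.log x.2 + c0))
      (Ph (Real.log (Real.sqrt Δ)) (((k / ((a : ℝ) * b)) •
        E (Real.log a) (Real.log (a * (b : ℝ) ^ 2))) * E 0 (-Real.log c))) := by
  have ha0 : (0 : ℝ) < a := by exact_mod_cast ha
  have hb0 : (0 : ℝ) < b := by exact_mod_cast hb
  have hs : 0 < Real.sqrt Δ := Real.sqrt_pos.2 hΔ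
  rw [smul_mul_assoc, E_mul, map_smul, Ph_E, smul_eq_mul, add_zero]
  set l := Real.log (Real.sqrt Δ) with hl
  set v := l - (Real.log (a * (b : ℝ) ^ 2) + -Real.log c) with hv
  have hev : Real.exp (-v) = a * (b : ℝ) ^ 2 / (c * Real.sqrt Δ) := by
    have : -v = Real.log (a * (b : ℝ) ^ 2 / (c * Real.sqrt Δ)) := by
      rw [Real.log_div (by positivity) (by positivity), Real.log_mul hc.ne' hs.ne', hv]
      ring
    rw [this, Real.exp_log (by positivity)]
  have hsum := hSSA.1 v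
  have hlog : ∀ x : ℕ × ℕ, 0 ≤ Real.log x.2 := fun x => Real.log_natCast_nonneg x.2
  have hs0 : Summable (fun x : ℕ × ℕ => Vk ((x.1 : ℝ) ^ 2 * x.2 * Real.exp (-v)) /
      ((x.1 : ℝ) * x.2)) := by
    refine Summable.of_norm_bounded hsum fun x => ?_
    rw [Real.norm_eq_abs, mul_div_right_comm, abs_mul]
    refine le_mul_of_one_le_right (abs_nonneg _) ?_
    rw [abs_of_nonneg (by linarith [hlog x])]
    linarith [hlog x]
  have hs1 : Summable (fun x : ℕ × ℕ => Vk ((x.1 : ℝ) ^ 2 * x.2 * Real.exp (-v)) *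
      Real.log x.2 / ((x.1 : ℝ) * x.2)) := by
    refine Summable.of_norm_bounded hsum fun x => ?_
    rw [Real.norm_eq_abs, mul_div_right_comm, abs_mul, mul_div_right_comm, abs_mul]
    refine mul_le_mul_of_nonneg_left ?_ (abs_nonneg _)
    rw [abs_of_nonneg (hlog x), abs_of_nonneg (by linarith [hlog x])]
    linarith
  have hS : HasSum (fun x : ℕ × ℕ => k / ((a : ℝ) * b) * ((l - Real.log a + c0) *
      (Vk ((x.1 : ℝ) ^ 2 * x.2 * Real.exp (-v)) / ((x.1 : ℝ) * x.2)) -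
      Vk ((x.1 : ℝ) ^ 2 * x.2 * Real.exp (-v)) * Real.log x.2 / ((x.1 : ℝ) * x.2)))
      (k / ((a : ℝ) * b) * SS (l - Real.log a) v) :=
    ((hs0.hasSum.mul_left _).sub hs1.hasSum).mul_left _
  have hg : Function.Injective (fun x : ℕ × ℕ => (b * x.1, a * x.2)) := by
    rintro ⟨x1, x2⟩ ⟨y1, y2⟩ h
    simp only [Prod.mk.injEq] at h
    rw [Prod.mk.injEq]
    exact ⟨Nat.eq_of_mul_eq_mul_left hb h.1, Nat.eq_of_mul_eq_mul_left ha h.2⟩
  refine (hg.hasSum_iff ?_).1 ?_
  · rintro ⟨x1, x2⟩ hx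
    have : ¬ (a ∣ x2 ∧ b ∣ x1) := by
      rintro ⟨⟨u, rfl⟩, ⟨t, rfl⟩⟩
      exact hx ⟨(t, u), rfl⟩
    simp [this]
  · refine hS.congr_fun ?_
    rintro ⟨x1, x2⟩
    simp only [Function.comp]
    rw [if_pos ⟨Nat.dvd_mul_right _ _, Nat.dvd_mul_right _ _⟩]
    rcases Nat.eq_zero_or_pos x1 with rfl | h1
    · simp
    rcases Nat.eq_zero_or_pos x2 with rfl | h2
    · simp
    have h10 : (0 : ℝ) < x1 := by exact_mod_cast h1
    have h20 : (0 : ℝ) < x2 := by exact_mod_cast h2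
    push_cast
    have e1 : ((b : ℝ) * x1) ^ 2 * (a * x2) / (c * Real.sqrt Δ) =
        (x1 : ℝ) ^ 2 * x2 * Real.exp (-v) := by
      rw [hev]
      ring
    rw [e1, Real.log_mul ha0.ne' h20.ne']
    field_simp
    ring

theorem hs_Rp (hSSA : T_SSA) (Δ : ℝ) (hΔ : 0 < Δ) (c : ℝ) (hc : 0 < c) {N : ℕ}
    {W : ℕ → ℕ → ℝ} {r : GR} (h : Rp N W r) :
    HasSum (fun x : ℕ × ℕ => Vk ((x.1 : ℝ) ^ 2 * x.2 / (c * Real.sqrt Δ)) / ((x.1 : ℝ) * x.2) *
      W x.1 x.2 * (Real.log (Real.sqrt Δ) - Real.log x.2 + c0))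
      (Ph (Real.log (Real.sqrt Δ)) (r * E 0 (-Real.log c))) := by
  induction h with
  | zero h =>
    rw [zero_mul, map_zero]
    simp only [h, mul_zero, zero_mul]
    exact hasSum_zero
  | ind a b k ha hb _ _ hW =>
    simp only [hW]
    exact hs_ind hSSA Δ hΔ c hc a b ha hb k
  | add _ _ hW ih ih' =>
    rw [add_mul, map_add]
    refine (ih.add ih').congr_fun fun x => ?_
    rw [hW]
    ring

theorem pf_MNR (hSSA : T_SSA) : T_MNR := by
  classical
  intro q n m₁ m₂ w T f Δ hn h1 h2 hT hTc hΔ hw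
  have h10 : (0 : ℝ) < m₁ := by exact_mod_cast Nat.pos_of_ne_zero h1.ne_zero
  have h20 : (0 : ℝ) < m₂ := by exact_mod_cast Nat.pos_of_ne_zero h2.ne_zero
  have hn0 : (0 : ℝ) < n := by exact_mod_cast hn
  have hRp0 : Rp (∏ p ∈ (m₁ * m₂).primeFactors, p)
      (fun e A => ∑ x ∈ T, if x.1 ∣ A ∧ x.2 ∣ e then f x else 0)
      (∑ x ∈ T, (f x / ((x.1 : ℝ) * x.2)) • E (Real.log x.1) (Real.log (x.1 * (x.2 : ℝ) ^ 2))) := by
    refine Rp.sum T (fun x e A => if x.1 ∣ A ∧ x.2 ∣ e then f x else 0) _ fun x hx => ?_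
    exact Rp.ind x.1 x.2 (f x) (hT x hx).1 (hT x hx).2
      ((hTc x hx).1.coprime_dvd_right (Nat.prod_primeFactors_dvd _))
      ((hTc x hx).2.coprime_dvd_right (Nat.prod_primeFactors_dvd _)) fun e A => rfl
  have hRp1 := Rp.prod m₁ m₂ _ (fun p hp => Nat.prime_of_mem_primeFactors hp) _ _ hRp0
  have hRp2 := hs_Rp hSSA Δ hΔ ((n : ℝ) * m₁ * m₂) (by positivity) hRp1
  have hka : ∏ p ∈ (m₁ * m₂).primeFactors, (if p ∣ m₁ ∧ p ∣ m₂ then
      E 0 (2 * Real.log p) * (et p + al p ^ 2) else E 0 (Real.log p) * al p) =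
      E 0 (Real.log m₁ + Real.log m₂) * ka m₁ m₂ := by
    unfold ka
    rw [← sum_log m₁ m₂ h1 h2, ← E_sum, ← Finset.prod_mul_distrib]
    refine Finset.prod_congr rfl fun p _ => ?_
    split_ifs <;> rfl
  have hr : (∑ x ∈ T, (f x / ((x.1 : ℝ) * x.2)) •
      E (Real.log x.1) (Real.log (x.1 * (x.2 : ℝ) ^ 2))) * E 0 (-Real.log n) =
      ∑ x ∈ T, (f x / ((x.1 : ℝ) * x.2)) •
        E (Real.log x.1) (Real.log (x.1 * (x.2 : ℝ) ^ 2 / n)) := by
    rw [Finset.sum_mul]
    refine Finset.sum_congr rfl fun x hx => ?_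
    have hx1 : (0 : ℝ) < x.1 := by exact_mod_cast (hT x hx).1
    have hx2 : (0 : ℝ) < x.2 := by exact_mod_cast (hT x hx).2
    rw [smul_mul_assoc, E_mul, add_zero, Real.log_div (by positivity) hn0.ne', sub_eq_add_neg]
  have hE : E 0 (Real.log m₁ + Real.log m₂) * E 0 (-Real.log ((n : ℝ) * m₁ * m₂)) =
      E 0 (-Real.log n) := by
    rw [E_mul, Real.log_mul (by positivity) h20.ne', Real.log_mul hn0.ne' h10.ne']
    congr 1 <;> ring
  rw [hka] at hRp2
  rw [← hr]
  have hfin : ∀ r k : GR, r * (E 0 (Real.log m₁ + Real.log m₂) * k) *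
      E 0 (-Real.log ((n : ℝ) * m₁ * m₂)) = r * E 0 (-Real.log n) * k := by
    intro r k
    rw [← hE]
    ring
  rw [hfin] at hRp2
  rw [← hRp2.tsum_eq]
  unfold Mn
  refine tsum_congr ?_
  rintro ⟨e, A⟩
  rcases Nat.eq_zero_or_pos e with rfl | he
  · simp
  rcases Nat.eq_zero_or_pos A with rfl | hA
  · simp
  have he0 : (0 : ℝ) < e := by exact_mod_cast he
  have hA0 : (0 : ℝ) < A := by exact_mod_cast hA
  have hsD : 0 < Real.sqrt Δ := Real.sqrt_pos.2 hΔ
  have hsq : Real.sqrt ((e : ℝ) ^ 2 * A) = e * Real.sqrt A := by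
    rw [Real.sqrt_mul (by positivity), Real.sqrt_sq he0.le]
  have hAs : Real.sqrt (A : ℝ) * Real.sqrt A = A := Real.mul_self_sqrt hA0.le
  simp only
  rw [hw e A he hA, hsq]
  unfold ct Nb
  rw [Real.log_div hsD.ne' hA0.ne']
  have hsA : 0 < Real.sqrt (A : ℝ) := Real.sqrt_pos.2 hA0
  have : ∀ V W N L : ℝ, V / (e * Real.sqrt A) * W * N * (L / Real.sqrt A) =
      V / ((e : ℝ) * A) * (W * N) * L := by
    intro V W N L
    conv_rhs => rw [← hAs]
    field_simp
  rw [this]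

end Pool.Agent.H1.CN
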